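import Pool.Agent.FHQ.StmtsZ

/-!
# Row ZQP of squad FHQ: the `p`-adic numbers
-/

set_option autoImplicit false

open scoped BigOperators

noncomputable section

namespace Pool.Agent.FHQ.H83

open Polynomial

variable {p : ℕ} [hp : Fact p.Prime]

theorem toZMod_eq_zero_iff (r : ℤ_[p]) : PadicInt.toZMod r = 0 ↔ ‖r‖ < 1 := by
  rw [← PadicInt.mem_nonunits, ← IsLocalRing.mem_maximalIdeal, ← PadicInt.ker_toZMod,
    RingHom.mem_ker]

theorem toZMod_ne_zero_iff (r : ℤ_[p]) : PadicInt.toZMod r ≠ 0 ↔ ‖r‖ = 1 := by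
  rw [Ne, toZMod_eq_zero_iff, not_lt]
  exact ⟨fun h => le_antisymm (PadicInt.norm_le_one r) h, fun h => h.ge⟩

theorem p_ne : (p : ℚ_[p]) ≠ 0 := by
  have := hp.out.ne_zero
  exact_mod_cast this

theorem norm_pz (n : ℤ) : ‖(p : ℚ_[p]) ^ n‖ = (p : ℝ) ^ (-n) := Padic.norm_p_zpow n

theorem one_lt_pR : (1 : ℝ) < p := by exact_mod_cast hp.out.one_lt

/-- the unit part -/
theorem unit_norm_le (x : ℚ_[p]) : ‖x * (p : ℚ_[p]) ^ (-x.valuation)‖ ≤ 1 := by
  rcases eq_or_ne x 0 with rfl | hx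
  · simp
  · rw [norm_mul, norm_pz, Padic.norm_eq_zpow_neg_valuation hx, neg_neg,
      ← zpow_add₀ (by have := one_lt_pR (p := p); linarith)]
    simp

/-- the unit part -/
def un (x : ℚ_[p]) : ℤ_[p] := ⟨x * (p : ℚ_[p]) ^ (-x.valuation), unit_norm_le x⟩

/-- the angular component -/
def ac (x : ℚ_[p]) : ZMod p := PadicInt.toZMod (un x)

theorem un_coe (x : ℚ_[p]) : ((un x : ℤ_[p]) : ℚ_[p]) = x * (p : ℚ_[p]) ^ (-x.valuation) := rfl

theorem un_mul (x : ℚ_[p]) : ((un x : ℤ_[p]) : ℚ_[p]) * (p : ℚ_[p]) ^ x.valuation = x := by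
  rw [un_coe, mul_assoc, ← zpow_add₀ p_ne]
  simp

theorem un_norm {x : ℚ_[p]} (hx : x ≠ 0) : ‖un x‖ = 1 := by
  rw [PadicInt.norm_def, un_coe, norm_mul, norm_pz, Padic.norm_eq_zpow_neg_valuation hx, neg_neg,
    ← zpow_add₀ (by have := one_lt_pR (p := p); linarith)]
  simp

theorem ac_ne {x : ℚ_[p]} (hx : x ≠ 0) : ac x ≠ 0 := by
  rw [ac, toZMod_ne_zero_iff]
  exact un_norm hx

theorem ac_z : ac (0 : ℚ_[p]) = 0 := by
  have : un (0 : ℚ_[p]) = 0 := by
    apply Subtype.ext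
    show (0 : ℚ_[p]) * _ = 0
    rw [zero_mul]
  rw [ac, this, map_zero]

/-- characterization -/
theorem char_ne {x : ℚ_[p]} {r : ℤ_[p]} {n : ℤ} (hx : x = (r : ℚ_[p]) * (p : ℚ_[p]) ^ n)
    (hr : PadicInt.toZMod r ≠ 0) : x ≠ 0 ∧ x.valuation = n ∧ ac x = PadicInt.toZMod r := by
  have hr1 : ‖(r : ℚ_[p])‖ = 1 := (toZMod_ne_zero_iff r).1 hr
  have hx0 : x ≠ 0 := by
    intro h
    have h1 : ‖x‖ = (p : ℝ) ^ (-n) := by rw [hx, norm_mul, hr1, one_mul, norm_pz]
    rw [h, norm_zero] at h1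
    have : (0 : ℝ) < (p : ℝ) ^ (-n) := zpow_pos (by have := one_lt_pR (p := p); linarith) _
    linarith
  have hv : x.valuation = n := by
    have h1 : ‖x‖ = (p : ℝ) ^ (-n) := by rw [hx, norm_mul, hr1, one_mul, norm_pz]
    rw [Padic.norm_eq_zpow_neg_valuation hx0] at h1
    have := zpow_right_injective₀ (by have := one_lt_pR (p := p); linarith)
      (by have := one_lt_pR (p := p); exact this.ne') h1
    omega
  refine ⟨hx0, hv, ?_⟩
  have : un x = r := by
    apply Subtype.ext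
    show x * (p : ℚ_[p]) ^ (-x.valuation) = (r : ℚ_[p])
    rw [hv, hx, mul_assoc, ← zpow_add₀ p_ne]
    simp
  rw [ac, this]

theorem char_zero {x : ℚ_[p]} {r : ℤ_[p]} {n : ℤ} (hx : x = (r : ℚ_[p]) * (p : ℚ_[p]) ^ n)
    (hr : PadicInt.toZMod r = 0) : x = 0 ∨ n < x.valuation := by
  by_cases hx0 : x = 0
  · exact Or.inl hx0
  · right
    have hr1 : ‖(r : ℚ_[p])‖ < 1 := (toZMod_eq_zero_iff r).1 hr
    have h1 : ‖x‖ < (p : ℝ) ^ (-n) := by
      rw [hx, norm_mul, norm_pz]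
      have : (0 : ℝ) < (p : ℝ) ^ (-n) := zpow_pos (by have := one_lt_pR (p := p); linarith) _
      nlinarith
    rw [Padic.norm_eq_zpow_neg_valuation hx0] at h1
    have := (zpow_lt_zpow_iff_right₀ (one_lt_pR (p := p))).1 h1
    omega

/-- the data without Hensel's lemma -/
def A0 (p : ℕ) [Fact p.Prime] : AcF0 p ℚ_[p] where
  v := Padic.valuation
  ac := ac
  v_zero := Padic.valuation_zero
  ac_zero := by
    intro x
    constructor
    · intro h
      by_contra hx
      exact ac_ne hx h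
    · rintro rfl
      exact ac_z
  v_mul := fun x y hx hy => Padic.valuation_mul hx hy
  ac_mul := by
    intro x y
    rcases eq_or_ne x 0 with rfl | hx
    · rw [zero_mul, ac_z, zero_mul]
    rcases eq_or_ne y 0 with rfl | hy
    · rw [mul_zero, ac_z, mul_zero]
    have h := char_ne (x := x * y) (r := un x * un y) (n := x.valuation + y.valuation) (by
      rw [PadicInt.coe_mul, zpow_add₀ p_ne]
      nth_rewrite 1 [← un_mul x, ← un_mul y]
      ring) (by rw [map_mul]; exact mul_ne_zero (ac_ne hx) (ac_ne hy))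
    rw [h.2.2, map_mul]
    rfl
  add_lt := by
    intro x y hx hy hlt
    obtain ⟨m, hm⟩ : ∃ m : ℕ, y.valuation = x.valuation + (m + 1 : ℕ) :=
      ⟨(y.valuation - x.valuation - 1).toNat, by push_cast; omega⟩
    have h := char_ne (x := x + y) (r := un x + un y * (p : ℤ_[p]) ^ (m + 1))
      (n := x.valuation) (by
      rw [PadicInt.coe_add, PadicInt.coe_mul, PadicInt.coe_pow, PadicInt.coe_natCast, add_mul,
        un_mul x, mul_assoc]
      congr 1
      rw [← zpow_natCast, ← zpow_add₀ p_ne, add_comm ((m + 1 : ℕ) : ℤ) x.valuation, ← hm, un_mul])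
      (by
        rw [map_add, map_mul, map_pow, map_natCast, CharP.cast_eq_zero, pow_succ, mul_zero,
          mul_zero, add_zero]
        exact ac_ne hx)
    refine ⟨h.2.1, ?_⟩
    rw [h.2.2, map_add, map_mul, map_pow, map_natCast, CharP.cast_eq_zero, pow_succ, mul_zero,
          mul_zero, add_zero]
    rfl
  add_eq := by
    intro x y hx hy hv hne
    have h := char_ne (x := x + y) (r := un x + un y) (n := x.valuation) (by
      rw [PadicInt.coe_add, add_mul, un_mul x, hv, un_mul y]) (by rw [map_add]; exact hne)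
    refine ⟨h.2.1, ?_⟩
    rw [h.2.2, map_add]
    rfl
  add_gt := by
    intro x y hx hy hv h0
    exact char_zero (x := x + y) (r := un x + un y) (n := x.valuation) (by
      rw [PadicInt.coe_add, add_mul, un_mul x, hv, un_mul y]) (by rw [map_add]; exact h0)
  surj := by
    intro z g hz
    have h0 : PadicInt.toZMod ((z.val : ℕ) : ℤ_[p]) = z := by
      rw [map_natCast, ZMod.natCast_zmod_val]
    have h := char_ne (x := (((z.val : ℕ) : ℤ_[p]) : ℚ_[p]) * (p : ℚ_[p]) ^ g)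
      (r := ((z.val : ℕ) : ℤ_[p])) (n := g) rfl (by rw [h0]; exact hz)
    exact ⟨_, h.1, by rw [h.2.2, h0], h.2.1⟩

theorem int_iff (x : ℚ_[p]) : (A0 p).Int x ↔ ‖x‖ ≤ 1 := by
  rw [Padic.norm_le_one_iff_val_nonneg]
  constructor
  · rintro (rfl | h)
    · exact le_of_eq Padic.valuation_zero.symm
    · exact h
  · intro h; exact Or.inr h

theorem res_coe (r : ℤ_[p]) : (A0 p).res (r : ℚ_[p]) = PadicInt.toZMod r := by
  unfold AcF0.res
  by_cases hr : PadicInt.toZMod r = 0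
  · rw [hr]
    rcases char_zero (x := (r : ℚ_[p])) (r := r) (n := 0) (by simp) hr with h | h
    · rw [if_neg]
      rintro ⟨h1, _⟩
      exact h1 h
    · rw [if_neg]
      rintro ⟨_, h1⟩
      have h1' : (r : ℚ_[p]).valuation = 0 := h1
      omega
  · have h := char_ne (x := (r : ℚ_[p])) (r := r) (n := 0) (by simp) hr
    rw [if_pos ⟨h.1, h.2.1⟩]
    exact h.2.2

theorem red_map (F : ℤ_[p][X]) :
    (A0 p).red (F.map PadicInt.Coe.ringHom) = F.map PadicInt.toZMod := by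
  ext n
  unfold AcF0.red
  rw [finset_sum_coeff, coeff_map]
  simp only [coeff_monomial]
  rw [Finset.sum_ite_eq']
  split_ifs with h
  · rw [coeff_map]
    exact res_coe _
  · rw [mem_support_iff, not_not, coeff_map] at h
    have h1 : F.coeff n = 0 := by
      apply Subtype.ext
      exact h
    rw [h1, map_zero]

theorem hensel (P : ℚ_[p][X]) (z : ZMod p) (hP : ∀ i, (A0 p).Int (P.coeff i))
    (h0 : ((A0 p).red P).eval z = 0) (h1 : (derivative ((A0 p).red P)).eval z ≠ 0) :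
    ∃ x : ℚ_[p], (A0 p).Int x ∧ (A0 p).res x = z ∧ P.eval x = 0 := by
  obtain ⟨F, rfl⟩ : ∃ F : ℤ_[p][X], F.map PadicInt.Coe.ringHom = P := by
    have : P ∈ lifts (PadicInt.Coe.ringHom : ℤ_[p] →+* ℚ_[p]) := by
      rw [lifts_iff_coeff_lifts]
      intro n
      exact ⟨⟨P.coeff n, (int_iff _).1 (hP n)⟩, rfl⟩
    exact (mem_lifts _).1 this
  rw [red_map] at h0 h1
  have hz : PadicInt.toZMod ((z.val : ℕ) : ℤ_[p]) = z := by
    rw [map_natCast, ZMod.natCast_zmod_val]
  have e0 : PadicInt.toZMod (F.eval ((z.val : ℕ) : ℤ_[p])) = 0 := by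
    rw [← h0]
    conv_rhs => rw [← hz]
    rw [eval_map, eval₂_at_apply]
  have e1 : PadicInt.toZMod (F.derivative.eval ((z.val : ℕ) : ℤ_[p])) ≠ 0 := by
    rw [derivative_map] at h1
    intro h
    apply h1
    rw [← h]
    conv_lhs => rw [← hz]
    rw [eval_map, eval₂_at_apply]
  rw [toZMod_eq_zero_iff] at e0
  rw [toZMod_ne_zero_iff] at e1
  have hn : ‖F.aeval ((z.val : ℕ) : ℤ_[p])‖ < ‖F.derivative.aeval ((z.val : ℕ) : ℤ_[p])‖ ^ 2 := by
    simp only [coe_aeval_eq_eval]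
    rw [e1]
    simpa using e0
  obtain ⟨x, hx0, hx1, -, -⟩ := hensels_lemma hn
  simp only [coe_aeval_eq_eval] at hx0 hx1
  rw [e1] at hx1
  refine ⟨(x : ℚ_[p]), (int_iff _).2 (PadicInt.norm_le_one x), ?_, ?_⟩
  · rw [res_coe]
    have h2 : PadicInt.toZMod (x - ((z.val : ℕ) : ℤ_[p])) = 0 := (toZMod_eq_zero_iff _).2 hx1
    rw [map_sub, hz, sub_eq_zero] at h2
    exact h2
  · have : (F.map PadicInt.Coe.ringHom).eval (PadicInt.Coe.ringHom x) = 0 := by
      rw [eval_map, eval₂_at_apply, hx0, map_zero]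
    exact this

theorem zqp : ZqpStmt := by
  intro p _
  refine ⟨{ A0 p with hensel := hensel }, ?_⟩
  intro x y
  constructor
  · rintro ⟨hx, hy, ha, hv⟩
    refine ⟨hx, hy, ?_⟩
    have ha' : PadicInt.toZMod (un x) = PadicInt.toZMod (un y) := ha
    have hv' : x.valuation = y.valuation := hv
    have h1 : ‖((un x - un y : ℤ_[p]) : ℚ_[p])‖ < 1 := by
      refine (toZMod_eq_zero_iff _).1 ?_
      rw [map_sub, ha', sub_self]
    have h2 : ‖((un y : ℤ_[p]) : ℚ_[p])‖ = 1 := un_norm hy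
    have h3 : ((un y : ℤ_[p]) : ℚ_[p]) ≠ 0 := by
      intro h
      rw [h, norm_zero] at h2
      exact zero_ne_one h2
    have h4 : x / y - 1 = ((un x - un y : ℤ_[p]) : ℚ_[p]) / ((un y : ℤ_[p]) : ℚ_[p]) := by
      have hx' := un_mul x
      have hy' := un_mul y
      rw [PadicInt.coe_sub, sub_div, div_self h3]
      congr 1
      rw [← hx', ← hy', hv']
      have hpp : (p : ℚ_[p]) ^ y.valuation ≠ 0 := zpow_ne_zero _ p_ne
      have e1 : (un (((un y : ℤ_[p]) : ℚ_[p]) * (p : ℚ_[p]) ^ y.valuation)) = un y := by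
        rw [un_mul]
      have e2 : (un (((un x : ℤ_[p]) : ℚ_[p]) * (p : ℚ_[p]) ^ y.valuation)) = un x := by
        rw [← hv', un_mul]
      rw [e1, e2, mul_div_mul_right _ _ hpp]
    show ‖x / y - 1‖ < 1
    rw [h4, norm_div, h2, div_one]
    exact h1
  · rintro ⟨hx, hy, h⟩
    have h' : ‖x / y - 1‖ < 1 := h
    obtain ⟨e, he⟩ : ∃ e : ℤ_[p], (e : ℚ_[p]) = x / y - 1 := ⟨⟨x / y - 1, h'.le⟩, rfl⟩
    have he0 : PadicInt.toZMod e = 0 := by
      rw [toZMod_eq_zero_iff, PadicInt.norm_def, he]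
      exact h'
    have hxe : x = ((un y * (1 + e) : ℤ_[p]) : ℚ_[p]) * (p : ℚ_[p]) ^ y.valuation := by
      rw [PadicInt.coe_mul, PadicInt.coe_add, PadicInt.coe_one, he, mul_right_comm, un_mul]
      field_simp
      ring
    have hmap : PadicInt.toZMod (un y * (1 + e)) = ac y := by
      rw [map_mul, map_add, map_one, he0, add_zero, mul_one]
      rfl
    have hc := char_ne hxe (by rw [hmap]; exact ac_ne hy)
    refine ⟨hx, hy, ?_, hc.2.1⟩
    show ac x = ac y
    rw [hc.2.2, hmap]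

end Pool.Agent.FHQ.H83
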